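import Pool.Agent.TH78.WP.PN

set_option autoImplicit false

open Finset Pool.Agent.H504R2 IsDedekindDomain NumberField
open scoped WithZero

namespace Pool.Agent.TH78.WP

section place

/-- the place of a prime ideal above `p` -/
theorem isPlace_of_prime (K : Type) [Field K] [NumberField K] (P : Ideal (𝓞 K)) (hPr : P.IsPrime)
    (p : ℕ) (hp : p.Prime) (hpP : (p : 𝓞 K) ∈ P) (e : ℕ) (he : (p : 𝓞 K) ∉ P ^ (e + 1))
    (hep : e + 1 < p) :
    ∃ v : Valuation K ℤᵐ⁰, Wild v p (Ideal.absNorm P) e := by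
  classical
  have hp0 : (p : 𝓞 K) ≠ 0 := by exact_mod_cast hp.ne_zero
  have hPbot : P ≠ ⊥ := by
    rintro rfl
    exact hp0 (by simpa using hpP)
  have hPmax : P.IsMaximal := hPr.isMaximal hPbot
  let w : HeightOneSpectrum (𝓞 K) := ⟨P, hPr, hPbot⟩
  have hPle : Ideal.span {(p : 𝓞 K)} ≤ P := by
    rw [Ideal.span_singleton_le_iff_mem]; exact hpP
  have hnorm : Ideal.absNorm P ∣ p ^ Module.finrank ℚ K := by
    have h1 := Ideal.absNorm_dvd_absNorm_of_le hPle
    rw [Ideal.absNorm_span_singleton] at h1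
    have h2 : (Algebra.norm ℤ ((p : ℕ) : 𝓞 K)) = (p : ℤ) ^ Module.finrank ℤ (𝓞 K) := by
      have := Algebra.norm_algebraMap (R := ℤ) (S := 𝓞 K) (p : ℤ)
      simpa using this
    rwa [h2, Int.natAbs_pow, Int.natAbs_natCast, RingOfIntegers.rank] at h1
  obtain ⟨f, hf, hfe⟩ := (Nat.dvd_prime_pow hp).1 hnorm
  have hf1 : 1 ≤ f := by
    rcases Nat.eq_zero_or_pos f with h0 | h0
    · rw [h0, pow_zero, Ideal.absNorm_eq_one_iff] at hfe
      exact absurd hfe hPmax.ne_top
    · exact h0
  letI : Field (𝓞 K ⧸ P) := Ideal.Quotient.field P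
  have hcard : Nat.card (𝓞 K ⧸ P) = p ^ f := by
    rw [← hfe]; rfl
  have hfin : Finite (𝓞 K ⧸ P) := Nat.finite_of_card_ne_zero (by rw [hcard]; exact (pow_pos hp.pos f).ne')
  letI := Fintype.ofFinite (𝓞 K ⧸ P)
  have hfc : Fintype.card (𝓞 K ⧸ P) = p ^ f := by rw [← Nat.card_eq_fintype_card]; exact hcard
  have hmem : ∀ r : 𝓞 K, w.valuation K (algebraMap (𝓞 K) K r) < 1 ↔ r ∈ P := fun r =>
    w.valuation_lt_one_iff_mem r
  have happ : ∀ x : K, w.valuation K x ≤ 1 → ∃ a : 𝓞 K, w.valuation K (algebraMap (𝓞 K) K a - x) < 1 := by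
    intro x hx
    obtain ⟨a, ha⟩ := w.exists_valuation_sub_lt_of_integer hx 1
    exact ⟨a, by simpa using ha⟩
  have hev : WithZero.exp (-(e : ℤ)) ≤ w.valuation K (p : K) := by
    by_contra hcon
    rw [not_le] at hcon
    apply he
    have h1 : w.intValuation (p : 𝓞 K) ≤ WithZero.exp (-((e + 1 : ℕ) : ℤ)) := by
      have h2 : w.valuation K (p : K) = w.intValuation (p : 𝓞 K) := by
        have := w.valuation_of_algebraMap (K := K) (p : 𝓞 K)
        simpa using this
      rw [← h2]
      by_cases h0 : w.valuation K (p : K) = 0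
      · rw [h0]; exact zero_le
      · rw [← WithZero.exp_log h0] at hcon ⊢
        rw [WithZero.exp_lt_exp] at hcon
        rw [WithZero.exp_le_exp]
        push_cast
        omega
    exact (w.intValuation_le_pow_iff_mem _ _).1 h1
  rw [hfe]
  refine ⟨w.valuation K, ⟨?_, ?_, ?_, ?_⟩, hp, hep, hev⟩
  · have := (hmem p).2 hpP
    simpa using this
  · intro n
    have := w.valuation_le_one (K := K) (n : 𝓞 K)
    simpa using this
  · intro u hu
    obtain ⟨a, ha⟩ := happ u hu.le
    have hau : w.valuation K (algebraMap (𝓞 K) K a) = 1 := by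
      have h1 : algebraMap (𝓞 K) K a = (algebraMap (𝓞 K) K a - u) + u := by ring
      rw [h1, Valuation.map_add_eq_of_lt_right _ (by rw [hu]; exact ha), hu]
    have haP : a ∉ P := by
      intro h; rw [← hmem] at h; rw [hau] at h; exact lt_irrefl _ h
    have ha0 : (Ideal.Quotient.mk P a) ≠ 0 := by
      rwa [Ne, Ideal.Quotient.eq_zero_iff_mem]
    have h1 : (Ideal.Quotient.mk P a) ^ (p ^ f - 1) = 1 := by
      rw [← hfc]; exact FiniteField.pow_card_sub_one_eq_one _ ha0
    have h2 : a ^ (p ^ f - 1) - 1 ∈ P := by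
      rw [← Ideal.Quotient.eq_zero_iff_mem, map_sub, map_pow, h1, map_one, sub_self]
    have h3 := (hmem _).2 h2
    rw [map_sub, map_pow, map_one] at h3
    have h4 : w.valuation K (u ^ (p ^ f - 1) - (algebraMap (𝓞 K) K a) ^ (p ^ f - 1)) < 1 := by
      rw [← Commute.mul_geom_sum₂ (Commute.all _ _), map_mul]
      have h5 : w.valuation K (∑ i ∈ Finset.range (p ^ f - 1), u ^ i * (algebraMap (𝓞 K) K a) ^ (p ^ f - 1 - 1 - i)) ≤ 1 := by
        apply Valuation.map_sum_le
        intro i _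
        rw [map_mul, map_pow, map_pow, hu, hau, one_pow, one_pow, one_mul]
      have h6 : w.valuation K (u - algebraMap (𝓞 K) K a) < 1 := by
        rw [Valuation.map_sub_swap]; exact ha
      calc _ ≤ w.valuation K (u - algebraMap (𝓞 K) K a) * 1 := by gcongr
        _ < 1 := by rwa [mul_one]
    have h7 : u ^ (p ^ f - 1) - 1 = (u ^ (p ^ f - 1) - (algebraMap (𝓞 K) K a) ^ (p ^ f - 1)) + ((algebraMap (𝓞 K) K a) ^ (p ^ f - 1) - 1) := by ring
    rw [h7]
    exact Valuation.map_add_lt _ h4 h3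
  · intro S hS
    rcases S.eq_empty_or_nonempty with rfl | ⟨x0, hx0⟩
    · simp
    have hint : ∀ x ∈ S, w.valuation K (x - x0) ≤ 1 := by
      intro x hx
      by_cases h : x = x0
      · simp [h]
      · exact (hS x hx x0 hx0 h).le
    have hch : ∀ x : K, ∃ a : 𝓞 K, x ∈ S → w.valuation K (algebraMap (𝓞 K) K a - (x - x0)) < 1 := by
      intro x
      by_cases hx : x ∈ S
      · obtain ⟨a, ha⟩ := happ _ (hint x hx)
        exact ⟨a, fun _ => ha⟩
      · exact ⟨0, fun h => absurd h hx⟩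
    choose g hg using hch
    have hinj : Set.InjOn (fun x => Ideal.Quotient.mk P (g x)) S := by
      intro x hx y hy hxy
      by_contra hne
      have h1 := hS x hx y hy hne
      have h2 : g x - g y ∈ P := Ideal.Quotient.eq.1 hxy
      have h3 := (hmem _).2 h2
      rw [map_sub] at h3
      have h4 : x - y = (algebraMap (𝓞 K) K (g x) - algebraMap (𝓞 K) K (g y))
          - (algebraMap (𝓞 K) K (g x) - (x - x0)) + (algebraMap (𝓞 K) K (g y) - (y - x0)) := by ring
      have h5 : w.valuation K (x - y) < 1 := by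
        rw [h4]
        exact Valuation.map_add_lt _ (Valuation.map_sub_lt _ h3 (hg x hx)) (hg y hy)
      rw [h1] at h5
      exact lt_irrefl _ h5
    have := Finset.card_le_card_of_injOn (t := Finset.univ) (fun x => Ideal.Quotient.mk P (g x)) (fun _ _ => Finset.mem_univ _) hinj
    rwa [Finset.card_univ, hfc] at this

end place

section forms

open MvPolynomial

variable {K : Type} [Field K]

lemma eval_smul_hom {σ : Type} [Fintype σ] {f : MvPolynomial σ K} {n : ℕ} (h : f.IsHomogeneous n)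
    (c : K) (x : σ → K) : eval (c • x) f = c ^ n * eval x f := by
  rw [eval_eq', eval_eq', mul_sum]
  apply sum_congr rfl
  intro m hm
  have h1 : ∑ i, m i = n := by
    have := h (mem_support_iff.1 hm)
    rw [Finsupp.weight_apply, Finsupp.sum_fintype] at this
    · simpa using this
    · simp
  simp only [Pi.smul_apply, smul_eq_mul, mul_pow, prod_mul_distrib]
  rw [prod_pow_eq_pow_sum, h1]
  ring

lemma eval_congr_vars {σ : Type} {S : Type} [CommRing S] [Algebra K S] {f : MvPolynomial σ K}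
    {x y : σ → S} (h : ∀ i ∈ f.vars, x i = y i) : aeval x f = aeval y f := by
  have := eval₂Hom_congr' (f₁ := algebraMap K S) (f₂ := algebraMap K S) (g₁ := x) (g₂ := y)
    (p₁ := f) (p₂ := f) rfl (fun i hi _ => h i hi) rfl
  simpa [aeval_def] using this

variable {N d : ℕ}

/-- the map of affine space given by `X i ^ d + g i` -/
noncomputable def fmap (d : ℕ) (g : Fin (N + 1) → MvPolynomial (Fin (N + 1)) K) (x : Fin (N + 1) → K) :
    Fin (N + 1) → K := fun i => eval x (X i ^ d + g i)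

open Classical in
/-- the perturbation as a function of sequences -/
noncomputable def Gx (g : Fin (N + 1) → MvPolynomial (Fin (N + 1)) K) (i : ℕ) (y : ℕ → K) : K :=
  if h : i < N + 1 then eval (fun l : Fin (N + 1) => y l) (g ⟨i, h⟩) else 0

/-- extension by zero -/
def ex (x : Fin (N + 1) → K) : ℕ → K := fun l => if h : l < N + 1 then x ⟨l, h⟩ else 0

lemma ex_apply (x : Fin (N + 1) → K) (i : Fin (N + 1)) : ex x i = x i := by
  unfold ex
  rw [dif_pos i.2]

lemma ex_inj {x y : Fin (N + 1) → K} (h : ex x = ex y) : x = y := by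
  funext i
  rw [← ex_apply x, ← ex_apply y, h]

lemma ex_fmap (hd : d ≠ 0) (g : Fin (N + 1) → MvPolynomial (Fin (N + 1)) K) (x : Fin (N + 1) → K) :
    ex (fmap d g x) = Fm d (Gx g) (ex x) := by
  funext l
  by_cases hl : l < N + 1
  · have h1 : (fun l : Fin (N + 1) => ex x l) = x := by
      funext i; exact ex_apply x i
    simp only [Fm, Gx, hl, dif_pos, h1]
    simp [ex, hl, fmap]
  · simp [Fm, Gx, ex, hl, hd]

lemma ex_iter (hd : d ≠ 0) (g : Fin (N + 1) → MvPolynomial (Fin (N + 1)) K) (x : Fin (N + 1) → K)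
    (t : ℕ) : ex ((fmap d g)^[t] x) = (Fm d (Gx g))^[t] (ex x) := by
  induction t with
  | zero => rfl
  | succ t ih =>
    rw [Function.iterate_succ_apply', Function.iterate_succ_apply', ex_fmap hd, ih]

lemma Gx_dep (g : Fin (N + 1) → MvPolynomial (Fin (N + 1)) K)
    (hv : ∀ i, (g i).vars ⊆ Finset.Iio i) : Dep (Gx g) := by
  intro i x y h
  by_cases hi : i < N + 1
  · simp only [Gx, hi, dif_pos]
    have := eval_congr_vars (S := K) (f := g ⟨i, hi⟩) (x := fun l : Fin (N + 1) => x l)
      (y := fun l : Fin (N + 1) => y l) (by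
        intro l hl
        have h1 := hv _ hl
        rw [Finset.mem_Iio] at h1
        exact h l (by simpa [Fin.lt_def] using h1))
    simpa [MvPolynomial.coe_aeval_eq_eval] using this
  · simp [Gx, hi]

lemma Gx_zero (hd : d ≠ 0) (g : Fin (N + 1) → MvPolynomial (Fin (N + 1)) K)
    (hg : ∀ i, (g i).IsHomogeneous d) (l : ℕ) : Gx g l 0 = 0 := by
  by_cases hl : l < N + 1
  · simp only [Gx, hl, dif_pos]
    have h1 := eval_smul_hom (hg ⟨l, hl⟩) 0 0
    rw [zero_smul, zero_pow hd, zero_mul] at h1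
    exact h1
  · simp [Gx, hl]

lemma fmap_smul (g : Fin (N + 1) → MvPolynomial (Fin (N + 1)) K)
    (hg : ∀ i, (g i).IsHomogeneous d) (c : K) (x : Fin (N + 1) → K) :
    fmap d g (c • x) = c ^ d • fmap d g x := by
  funext i
  show eval (c • x) (X i ^ d + g i) = c ^ d * eval x (X i ^ d + g i)
  apply eval_smul_hom
  apply IsHomogeneous.add _ (hg i)
  exact isHomogeneous_X_pow i d

lemma iter_smul (g : Fin (N + 1) → MvPolynomial (Fin (N + 1)) K)
    (hg : ∀ i, (g i).IsHomogeneous d) (c : K) (x : Fin (N + 1) → K) (t : ℕ) :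
    (fmap d g)^[t] (c • x) = c ^ (d ^ t) • (fmap d g)^[t] x := by
  induction t with
  | zero => simp
  | succ t ih =>
    rw [Function.iterate_succ_apply', Function.iterate_succ_apply', ih, fmap_smul g hg, ← pow_mul,
      ← pow_succ]

/-- leading coordinate `x_j = 1` is preserved -/
lemma lead_iter {G : ℕ → (ℕ → K) → K} (hd : d ≠ 0) (hG : Dep G) (hG0 : ∀ l, G l 0 = 0) {j : ℕ}
    {x : ℕ → K} (h0 : ∀ l < j, x l = 0) (h1 : x j = 1) (t : ℕ) :
    (∀ l < j, ((Fm d G)^[t] x) l = 0) ∧ ((Fm d G)^[t] x) j = 1 := by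
  induction t with
  | zero => exact ⟨h0, h1⟩
  | succ t ih =>
    rw [Function.iterate_succ_apply']
    set y := (Fm d G)^[t] x
    have hz : ∀ l ≤ j, G l y = 0 := by
      intro l hl
      rw [← hG0 l]
      exact hG l y 0 (fun l' hl' => ih.1 l' (by omega))
    refine ⟨fun l hl => ?_, ?_⟩
    · show y l ^ d + G l y = 0
      rw [ih.1 l hl, hz l hl.le, zero_pow hd, add_zero]
    · show y j ^ d + G j y = 1
      rw [ih.2, hz j le_rfl, one_pow, add_zero]

/-- the forms define a morphism -/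
lemma morphism (hd : d ≠ 0) (g : Fin (N + 1) → MvPolynomial (Fin (N + 1)) K)
    (hg : ∀ i, (g i).IsHomogeneous d) (hv : ∀ i, (g i).vars ⊆ Finset.Iio i) {L : Type} [Field L]
    [Algebra K L] (x : Fin (N + 1) → L) (hx : ∀ i, aeval x (X i ^ d + g i) = 0) : x = 0 := by
  have key : ∀ n : ℕ, ∀ i : Fin (N + 1), (i : ℕ) = n → x i = 0 := by
    intro n
    induction n using Nat.strong_induction_on with
    | _ n ih =>
      intro i hi
      have h1 : aeval x (g i) = aeval (0 : Fin (N + 1) → L) (g i) := by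
        apply eval_congr_vars
        intro l hl
        have h2 := hv i hl
        rw [Finset.mem_Iio, Fin.lt_def] at h2
        exact ih l (by omega) l rfl
      have h2 : aeval (0 : Fin (N + 1) → L) (g i) = 0 := by
        have h3 : (0 : Fin (N + 1) → L) = fun l => algebraMap K L ((0 : Fin (N + 1) → K) l) := by
          funext l; simp
        rw [h3]
        have h4 : aeval (fun l => algebraMap K L ((0 : Fin (N + 1) → K) l)) (g i) =
            algebraMap K L (aeval (0 : Fin (N + 1) → K) (g i)) :=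
          MvPolynomial.aeval_algebraMap_apply _ _ _
        have h5 := eval_smul_hom (hg i) 0 0
        rw [zero_smul, zero_pow hd, zero_mul] at h5
        have h6 : aeval (0 : Fin (N + 1) → K) (g i) = eval (0 : Fin (N + 1) → K) (g i) := by
          rw [← MvPolynomial.coe_aeval_eq_eval]; rfl
        rw [h4, h6, h5, map_zero]
      have h3 := hx i
      rw [map_add, map_pow, aeval_X, h1, h2, add_zero] at h3
      exact eq_zero_of_pow_eq_zero h3
  funext i
  exact key i i rfl

/-- the bound -/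
theorem bound {v : Valuation K ℤᵐ⁰} {p q e k : ℕ} (w : Wild v p q e) (D : Expo p q d k)
    (hN : e * k * q ^ (N - 1) < d - 1) (g : Fin (N + 1) → MvPolynomial (Fin (N + 1)) K)
    (hg : ∀ i, (g i).IsHomogeneous d) (hv : ∀ i, (g i).vars ⊆ Finset.Iio i)
    (S : Finset (Fin (N + 1) → K)) (hS0 : ∀ x ∈ S, x ≠ 0)
    (hS1 : ∀ x ∈ S, ∀ y ∈ S, ∀ c : K, x = c • y → x = y)
    (hS : ∀ x ∈ S, ∃ m n : ℕ, m < n ∧ ∃ c : K, c ≠ 0 ∧
      (fmap d g)^[n] x = c • (fmap d g)^[m] x) :
    S.card ≤ ∑ i ∈ range (N + 1), q ^ i := by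
  classical
  have hd : d ≠ 0 := by have := D.two_le w; omega
  have hG := Gx_dep g hv
  have hG0 := Gx_zero hd g hg
  -- leading coordinates
  have hlead : ∀ x : Fin (N + 1) → K, ∃ j : Fin (N + 1), x ≠ 0 → x j ≠ 0 ∧ ∀ l < j, x l = 0 := by
    intro x
    by_cases hx : x = 0
    · exact ⟨0, fun h => absurd hx h⟩
    have h1 : (univ.filter fun i => x i ≠ 0).Nonempty := by
      by_contra hcon
      rw [Finset.not_nonempty_iff_eq_empty] at hcon
      apply hx
      funext i
      by_contra h2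
      have : i ∈ univ.filter fun i => x i ≠ 0 := by rw [mem_filter]; exact ⟨mem_univ _, h2⟩
      rw [hcon] at this
      exact absurd this (Finset.notMem_empty _)
    refine ⟨(univ.filter fun i => x i ≠ 0).min' h1, fun _ => ⟨?_, ?_⟩⟩
    · exact (mem_filter.1 (Finset.min'_mem _ h1)).2
    · intro l hl
      by_contra h2
      have h3 : l ∈ univ.filter fun i => x i ≠ 0 := by rw [mem_filter]; exact ⟨mem_univ _, h2⟩
      exact absurd (Finset.min'_le _ l h3) (not_le.2 hl)
  choose J hJ using hlead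
  set nz : (Fin (N + 1) → K) → (Fin (N + 1) → K) := fun x => (x (J x))⁻¹ • x with hnz
  have hinj : Set.InjOn (fun x => ex (nz x)) S := by
    intro x hx y hy hxy
    have h1 : nz x = nz y := ex_inj hxy
    have h2 := (hJ x (hS0 x hx)).1
    apply hS1 x hx y hy (x (J x) * (y (J y))⁻¹)
    rw [mul_smul]
    change x = x (J x) • nz y
    rw [← h1, hnz]
    simp only
    rw [smul_smul, mul_inv_cancel₀ h2, one_smul]
  have h1 := count_all w D hG hG0 N hN (S.image fun x => ex (nz x)) ?_ ?_
  · rwa [Finset.card_image_of_injOn hinj] at h1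
  · intro z hz
    rw [mem_image] at hz
    obtain ⟨x, hx, rfl⟩ := hz
    obtain ⟨hj1, hj2⟩ := hJ x (hS0 x hx)
    have hlow : ∀ l < (J x : ℕ), ex (nz x) l = 0 := by
      intro l hl
      have hl' : l < N + 1 := hl.trans (J x).2
      have h2 : ex (nz x) l = nz x ⟨l, hl'⟩ := ex_apply (nz x) ⟨l, hl'⟩
      rw [h2]
      show (x (J x))⁻¹ * x ⟨l, hl'⟩ = 0
      rw [hj2 ⟨l, hl'⟩ (by rw [Fin.lt_def]; exact hl), mul_zero]
    have hone : ex (nz x) (J x) = 1 := by
      rw [ex_apply]
      exact inv_mul_cancel₀ hj1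
    refine ⟨J x, by have := (J x).2; omega, hlow, hone, ?_⟩
    obtain ⟨m, n, hmn, c, hc, hx'⟩ := hS x hx
    have ha : (x (J x))⁻¹ ≠ 0 := inv_ne_zero hj1
    have h2 : ∃ c' : K, (fmap d g)^[n] (nz x) = c' • (fmap d g)^[m] (nz x) := by
      refine ⟨(x (J x))⁻¹ ^ (d ^ n) * c * ((x (J x))⁻¹ ^ (d ^ m))⁻¹, ?_⟩
      simp only [hnz]
      rw [iter_smul g hg, iter_smul g hg, hx', smul_smul, smul_smul, mul_assoc,
        inv_mul_cancel₀ (pow_ne_zero _ ha), mul_one]
    obtain ⟨c', h2⟩ := h2
    have h3 := congrArg ex h2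
    rw [ex_iter hd] at h3
    have h4 : ex (c' • (fmap d g)^[m] (nz x)) = c' • (Fm d (Gx g))^[m] (ex (nz x)) := by
      rw [← ex_iter hd]
      funext l
      by_cases hl : l < N + 1
      · simp [ex, hl]
      · simp [ex, hl]
    rw [h4] at h3
    have h5 := congrFun h3 (J x)
    rw [Pi.smul_apply, (lead_iter hd hG hG0 hlow hone n).2, (lead_iter hd hG hG0 hlow hone m).2,
      smul_eq_mul, mul_one] at h5
    rw [← h5, one_smul] at h3
    refine ⟨n - m, by omega, ?_⟩
    apply (Fm_injective w D hG).iterate m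
    rw [← Function.iterate_add_apply, show m + (n - m) = n by omega]
    exact h3
  · intro z hz l hl
    rw [mem_image] at hz
    obtain ⟨x, hx, rfl⟩ := hz
    have : ¬ l < N + 1 := by omega
    simp [ex, this]

end forms

end Pool.Agent.TH78.WP
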