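import Pool.Agent.H504R2.Near

set_option autoImplicit false

/-!
# Power maps at a place above the exponent

`Wild v p q e`: `v` is a discrete valuation with residue field of `q` elements and residue
characteristic `p`, of ramification index at most `e < p - 1`.
-/

open Finset Pool.Agent.H504R2
open scoped WithZero

namespace Pool.Agent.TH78.WP

variable {K : Type} [Field K] {v : Valuation K ℤᵐ⁰} {p q e d k : ℕ}

/-- a place above `p` of ramification index at most `e < p - 1` -/
structure Wild (v : Valuation K ℤᵐ⁰) (p q e : ℕ) : Prop where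
  hv : IsPlace v p q
  hp : p.Prime
  he : e + 1 < p
  hev : WithZero.exp (-(e : ℤ)) ≤ v (p : K)

lemma le_exp_neg_one {x : ℤᵐ⁰} (h : x < 1) : x ≤ WithZero.exp (-1 : ℤ) := by
  by_cases h0 : x = 0
  · rw [h0]; exact zero_le
  · rw [← WithZero.exp_log h0] at h ⊢
    rw [← WithZero.exp_zero, WithZero.exp_lt_exp] at h
    rw [WithZero.exp_le_exp]
    omega

lemma Wild.v_pos (w : Wild v p q e) : 0 < v (p : K) :=
  lt_of_lt_of_le (WithZero.exp_pos) w.hev

lemma Wild.pow_lt (w : Wild v p q e) {x : ℤᵐ⁰} (h : x < 1) : x ^ (p - 1) < v (p : K) := by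
  have h1 : x ^ (p - 1) ≤ WithZero.exp (-1 : ℤ) ^ (p - 1) := pow_le_pow_left₀ zero_le (le_exp_neg_one h) _
  refine lt_of_le_of_lt h1 (lt_of_lt_of_le ?_ w.hev)
  rw [← WithZero.exp_nsmul, WithZero.exp_lt_exp]
  have := w.he
  simp only [smul_neg, nsmul_eq_mul, mul_one]
  omega

lemma Wild.near_p (w : Wild v p q e) {t : K} (h : v (t - 1) < 1) :
    v (t ^ p - 1) = v (p : K) * v (t - 1) := by
  by_cases ht : t = 1
  · subst ht; simp
  have hu0 : t - 1 ≠ 0 := sub_ne_zero.2 ht
  set u := t - 1 with hu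
  have hvu : 0 < v u := zero_lt_iff.2 ((Valuation.ne_zero_iff v).2 hu0)
  have hvp := w.v_pos
  have htu : t = u + 1 := by rw [hu]; ring
  obtain ⟨n, hn⟩ : ∃ n, p = n + 2 := ⟨p - 2, by have := w.hp.two_le; omega⟩
  have key : t ^ p - 1 = (∑ m ∈ range (n + 1), u ^ (m + 2) * ((p.choose (m + 2) : ℕ) : K)) + (p : K) * u := by
    rw [htu, add_pow]
    conv_lhs => rw [show p + 1 = (n + 1) + 1 + 1 by omega]
    rw [Finset.sum_range_succ', Finset.sum_range_succ']
    simp only [one_pow, mul_one, Nat.choose_zero_right, Nat.cast_one, pow_zero, zero_add, Nat.choose_one_right,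
      pow_one]
    ring
  have hlt : v (∑ m ∈ range (n + 1), u ^ (m + 2) * ((p.choose (m + 2) : ℕ) : K)) < v ((p : K) * u) := by
    apply Valuation.map_sum_lt _
    · rw [map_mul]; exact (mul_pos hvp hvu).ne'
    intro m hm
    rw [mem_range] at hm
    rw [map_mul, map_mul, map_pow]
    have hpow : v u ^ (m + 2) < v u := by
      calc v u ^ (m + 2) = v u ^ (m + 1) * v u := pow_succ _ _
        _ < 1 * v u := by
            apply mul_lt_mul_of_pos_right _ hvu
            exact pow_lt_one₀ zero_le h (by omega)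
        _ = v u := one_mul _
    by_cases hmp : m + 2 < p
    · have hdvd : p ∣ p.choose (m + 2) := w.hp.dvd_choose_self (by omega) hmp
      obtain ⟨s, hs⟩ := hdvd
      have hc : v ((p.choose (m + 2) : ℕ) : K) ≤ v (p : K) := by
        rw [hs, Nat.cast_mul, map_mul]
        calc v (p : K) * v (s : K) ≤ v (p : K) * 1 := by gcongr; exact w.hv.nat_le s
          _ = v (p : K) := mul_one _
      calc v u ^ (m + 2) * v ((p.choose (m + 2) : ℕ) : K) ≤ v u ^ (m + 2) * v (p : K) := by gcongr
        _ < v u * v (p : K) := mul_lt_mul_of_pos_right hpow hvp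
        _ = v (p : K) * v u := mul_comm _ _
    · have hmp' : m + 2 = p := by omega
      rw [hmp', Nat.choose_self, Nat.cast_one, map_one, mul_one]
      have h2 := w.pow_lt h
      calc v u ^ p = v u ^ (p - 1) * v u := by rw [← pow_succ]; congr 1; omega
        _ < v (p : K) * v u := mul_lt_mul_of_pos_right h2 hvu
  rw [key, Valuation.map_add_eq_of_lt_right _ hlt, map_mul]

lemma Wild.near_ppow (w : Wild v p q e) {t : K} (h : v (t - 1) < 1) (k : ℕ) :
    v (t ^ p ^ k - 1) = v (p : K) ^ k * v (t - 1) ∧ v (t ^ p ^ k - 1) < 1 := by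
  induction k with
  | zero => simpa using h
  | succ k ih =>
    have h1 := w.near_p ih.2
    rw [← pow_mul, ← pow_succ] at h1
    have hle : v (t ^ p ^ (k + 1) - 1) < 1 := by
      rw [h1]
      calc v (p : K) * v (t ^ p ^ k - 1) ≤ v (p : K) * 1 := by gcongr; exact ih.2.le
        _ = v (p : K) := mul_one _
        _ < 1 := w.hv.p_lt
    refine ⟨?_, hle⟩
    rw [h1, ih.1, pow_succ, ← mul_assoc, mul_comm (v (p : K)) (v (p : K) ^ k)]

/-- the exponent: `d = p ^ k * m` with `m` prime to `p`, `k ≥ 1`, and `d` prime to `q - 1` -/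
structure Expo (p q d k : ℕ) : Prop where
  k1 : 1 ≤ k
  cop : Nat.Coprime d (q - 1)
  fac : ∃ m, d = p ^ k * m ∧ 1 ≤ m ∧ Nat.Coprime m p

lemma Expo.two_le (w : Wild v p q e) (D : Expo p q d k) : 2 ≤ d := by
  obtain ⟨m, hm, hm1, -⟩ := D.fac
  rw [hm]
  have h1 : p ^ 1 ≤ p ^ k := Nat.pow_le_pow_right w.hp.pos D.k1
  have h2 := w.hp.two_le
  rw [pow_one] at h1
  calc 2 ≤ p ^ k := h2.trans h1
    _ = p ^ k * 1 := (mul_one _).symm
    _ ≤ p ^ k * m := Nat.mul_le_mul_left _ hm1

lemma near_d (w : Wild v p q e) (D : Expo p q d k) {t : K} (h : v (t - 1) < 1) :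
    v (t ^ d - 1) = v (p : K) ^ k * v (t - 1) := by
  obtain ⟨m, hm, hm1, hmp⟩ := D.fac
  have hmq : Nat.Coprime m (q - 1) := Nat.Coprime.coprime_dvd_left ⟨p ^ k, by rw [hm]; ring⟩ D.cop
  have h1 := w.near_ppow h k
  set s := t ^ p ^ k with hs
  have hvs : v s = 1 := by
    have : s = (s - 1) + 1 := by ring
    rw [this, Valuation.map_add_eq_of_lt_right _ (by rw [map_one]; exact h1.2), map_one]
  have h2 := congrArg v (gs_mul m s 1)
  rw [map_mul, v_gs w.hv hm1 hmp hmq, hvs, map_one, max_self, one_pow, mul_one, one_pow] at h2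
  rw [hm, pow_mul, ← hs, ← h2, h1.1]

lemma far_d (w : Wild v p q e) (D : Expo p q d k) {x y : K} (h : v x ≤ v (x - y)) :
    v (x ^ d - y ^ d) = v (x - y) ^ d := by
  have hd := D.two_le w
  rcases lt_trichotomy (v x) (v y) with hxy | hxy | hxy
  · rw [Valuation.map_sub_eq_of_lt_right _ hxy, Valuation.map_sub_eq_of_lt_right _ (by
      rw [map_pow, map_pow]; exact pow_lt_pow_left₀ hxy zero_le (by omega)), map_pow]
  · have hle : v (x - y) ≤ v x := by
      calc v (x - y) ≤ max (v x) (v y) := Valuation.map_sub _ _ _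
        _ = v x := by rw [← hxy, max_self]
    have heq : v (x - y) = v x := le_antisymm hle h
    by_cases hy0 : y = 0
    · have hx0 : x = 0 := by
        rw [hy0, map_zero] at hxy; exact (Valuation.zero_iff v).1 hxy
      subst hx0; subst hy0
      simp [show d ≠ 0 by omega]
    have hvy : v y ≠ 0 := (Valuation.ne_zero_iff v).2 hy0
    have h2 : v (x ^ d - y ^ d) ≤ v y ^ d := by
      calc v (x ^ d - y ^ d) ≤ max (v (x ^ d)) (v (y ^ d)) := Valuation.map_sub _ _ _
        _ = v y ^ d := by rw [map_pow, map_pow, hxy, max_self]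
    rw [heq, hxy]
    rcases h2.lt_or_eq with h3 | h3
    · exfalso
      have hu : v (x / y) = 1 := by rw [map_div₀, hxy, div_self hvy]
      have h4 : v ((x / y) ^ d - 1) < 1 := by
        have h5 : (x / y) ^ d - 1 = (x ^ d - y ^ d) / y ^ d := by
          rw [div_pow, sub_div, div_self (pow_ne_zero _ hy0)]
        rw [h5, map_div₀, map_pow]
        exact (div_lt_one₀ (pow_pos (zero_lt_iff.2 hvy) d)).2 h3
      have h6 := w.hv.residue_inj D.cop hu h4
      have h7 : x / y - 1 = (x - y) / y := by rw [sub_div, div_self hy0]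
      rw [h7, map_div₀, heq, hxy, div_self hvy] at h6
      exact lt_irrefl _ h6
    · exact h3
  · rw [Valuation.map_sub_eq_of_lt_left _ hxy, Valuation.map_sub_eq_of_lt_left _ (by
      rw [map_pow, map_pow]; exact pow_lt_pow_left₀ hxy zero_le (by omega)), map_pow]

lemma close_d (w : Wild v p q e) (D : Expo p q d k) {x y : K} (h : v (x - y) < v x) :
    v (x ^ d - y ^ d) = v (p : K) ^ k * v x ^ (d - 1) * v (x - y) := by
  have hd := D.two_le w
  have hx0 : x ≠ 0 := by
    rintro rfl
    rw [map_zero] at h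
    exact absurd h (not_lt.2 zero_le)
  have hvx : v x ≠ 0 := (Valuation.ne_zero_iff v).2 hx0
  have h1 : v (y / x - 1) < 1 := by
    have e1 : y / x - 1 = - ((x - y) / x) := by field_simp; ring
    rw [e1, Valuation.map_neg, map_div₀]
    exact (div_lt_one₀ (zero_lt_iff.2 hvx)).2 h
  have h2 := near_d w D h1
  have e2 : x ^ d - y ^ d = - (x ^ d * ((y / x) ^ d - 1)) := by
    rw [div_pow]; field_simp; ring
  have e1 : y / x - 1 = - ((x - y) / x) := by field_simp; ring
  rw [e2, Valuation.map_neg, map_mul, h2, map_pow, e1, Valuation.map_neg, map_div₀]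
  have h3 : v x ^ d = v x ^ (d - 1) * v x := by rw [← pow_succ]; congr 1; omega
  rw [h3]
  field_simp

lemma inj_d (w : Wild v p q e) (D : Expo p q d k) {x y : K} (h : x ≠ y) : x ^ d ≠ y ^ d := by
  intro hxy
  have h0 : 0 < v (x - y) := zero_lt_iff.2 ((Valuation.ne_zero_iff v).2 (sub_ne_zero.2 h))
  have h1 : v (x ^ d - y ^ d) = 0 := by rw [hxy, sub_self, map_zero]
  rcases lt_or_ge (v (x - y)) (v x) with h2 | h2
  · rw [close_d w D h2] at h1
    have h3 := w.v_pos
    have h4 : 0 < v x := h0.trans h2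
    exact absurd h1 (mul_pos (mul_pos (pow_pos h3 _) (pow_pos h4 _)) h0).ne'
  · rw [far_d w D h2] at h1
    exact absurd h1 (pow_pos h0 _).ne'

end Pool.Agent.TH78.WP
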