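import Pool.Agent.TH78.WP.Seq

set_option autoImplicit false

open Finset Pool.Agent.H504R2
open scoped WithZero

namespace Pool.Agent.TH78.WP

variable {K : Type} [Field K] {v : Valuation K ℤᵐ⁰} {p q e d k : ℕ}
  {G : ℕ → (ℕ → K) → K}

/-- the triangular map `x ↦ (x_i ^ d + G_i(x))_i` -/
def Fm (d : ℕ) (G : ℕ → (ℕ → K) → K) (x : ℕ → K) : ℕ → K := fun i => x i ^ d + G i x

/-- `G i` depends only on the coordinates below `i` -/
def Dep (G : ℕ → (ℕ → K) → K) : Prop := ∀ i x y, (∀ l < i, x l = y l) → G i x = G i y

/-- `x` and `y` agree up to the coordinate `i` -/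
def Agr (i : ℕ) (x y : ℕ → K) : Prop := ∀ l ≤ i, x l = y l

/-- truncation -/
def tr (i : ℕ) (x : ℕ → K) : ℕ → K := fun l => if l ≤ i then x l else 0

omit [Field K] in
lemma Agr.symm {i : ℕ} {x y : ℕ → K} (h : Agr i x y) : Agr i y x := fun l hl => (h l hl).symm

lemma tr_eq_iff {i : ℕ} {x y : ℕ → K} : tr i x = tr i y ↔ Agr i x y := by
  constructor
  · intro h l hl
    have := congrFun h l
    simpa [tr, hl] using this
  · intro h
    funext l
    by_cases hl : l ≤ i
    · simp [tr, hl, h l hl]
    · simp [tr, hl]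

lemma tr_tr {i : ℕ} (x : ℕ → K) : tr i (tr (i + 1) x) = tr i x := by
  rw [tr_eq_iff]
  intro l hl
  have : l ≤ i + 1 := by omega
  simp [tr, this]

lemma Agr.map (hG : Dep G) {i : ℕ} {x y : ℕ → K} (h : Agr i x y) :
    Agr i (Fm d G x) (Fm d G y) := by
  intro l hl
  show x l ^ d + G l x = y l ^ d + G l y
  rw [h l hl, hG l x y (fun l' hl' => h l' (by omega))]

lemma Agr.iter (hG : Dep G) {i : ℕ} {x y : ℕ → K} (h : Agr i x y) (t : ℕ) :
    Agr i ((Fm d G)^[t] x) ((Fm d G)^[t] y) := by
  induction t with
  | zero => exact h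
  | succ t ih =>
    rw [Function.iterate_succ_apply', Function.iterate_succ_apply']
    exact ih.map hG

lemma Agr.reflect (w : Wild v p q e) (D : Expo p q d k) (hG : Dep G) {i : ℕ} {x y : ℕ → K}
    (h : Agr i (Fm d G x) (Fm d G y)) : Agr i x y := by
  intro l
  induction l using Nat.strong_induction_on with
  | _ l ih =>
    intro hl
    have h1 : x l ^ d + G l x = y l ^ d + G l y := h l hl
    have h2 : G l x = G l y := hG l x y (fun l' hl' => ih l' hl' (by omega))
    rw [h2] at h1
    by_contra hne
    exact inj_d w D hne (add_right_cancel h1)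

lemma Agr.reflect_iter (w : Wild v p q e) (D : Expo p q d k) (hG : Dep G) {i : ℕ} (t : ℕ)
    {x y : ℕ → K} (h : Agr i ((Fm d G)^[t] x) ((Fm d G)^[t] y)) : Agr i x y := by
  induction t with
  | zero => exact h
  | succ t ih =>
    rw [Function.iterate_succ_apply', Function.iterate_succ_apply'] at h
    exact ih (h.reflect w D hG)

lemma Fm_injective (w : Wild v p q e) (D : Expo p q d k) (hG : Dep G) :
    Function.Injective (Fm d G) := by
  intro x y h
  funext i
  have : Agr i (Fm d G x) (Fm d G y) := fun l _ => by rw [h]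
  exact this.reflect w D hG i le_rfl

/-- periodic points with leading coordinate `x_j = 1` -/
structure PerPt (d : ℕ) (G : ℕ → (ℕ → K) → K) (j : ℕ) (x : ℕ → K) : Prop where
  low : ∀ l < j, x l = 0
  one : x j = 1
  per : ∃ n, 1 ≤ n ∧ (Fm d G)^[n] x = x

lemma PerPt.map (hd : d ≠ 0) (hG : Dep G) (hG0 : ∀ l, G l 0 = 0) {j : ℕ} {x : ℕ → K}
    (h : PerPt d G j x) : PerPt d G j (Fm d G x) := by
  have hz : ∀ l ≤ j, G l x = 0 := by
    intro l hl
    rw [← hG0 l]
    exact hG l x 0 (fun l' hl' => h.low l' (by omega))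
  refine ⟨fun l hl => ?_, ?_, ?_⟩
  · show x l ^ d + G l x = 0
    rw [h.low l hl, hz l hl.le, zero_pow hd, add_zero]
  · show x j ^ d + G j x = 1
    rw [h.one, hz j le_rfl, one_pow, add_zero]
  · obtain ⟨n, hn, h1⟩ := h.per
    refine ⟨n, hn, ?_⟩
    rw [← Function.iterate_succ_apply, Function.iterate_succ_apply', h1]

lemma PerPt.iter (hd : d ≠ 0) (hG : Dep G) (hG0 : ∀ l, G l 0 = 0) {j : ℕ} {x : ℕ → K}
    (h : PerPt d G j x) (t : ℕ) : PerPt d G j ((Fm d G)^[t] x) := by
  induction t with
  | zero => exact h
  | succ t ih =>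
    rw [Function.iterate_succ_apply']
    exact ih.map hd hG hG0

lemma Wild.q_pos (w : Wild v p q e) : 1 ≤ q := by
  have := w.hv.card_le {0} (by
    intro x hx y hy h
    rw [mem_singleton] at hx hy
    exact absurd (hx.trans hy.symm) h)
  simpa using this

theorem count_tr (w : Wild v p q e) (D : Expo p q d k) (hG : Dep G) (hG0 : ∀ l, G l 0 = 0)
    (j : ℕ) [DecidableEq (ℕ → K)] : ∀ s, (1 ≤ s → e * k * q ^ (s - 1) < d - 1) → ∀ S : Finset (ℕ → K),
      (∀ x ∈ S, PerPt d G j x) → (S.image (tr (j + s))).card ≤ q ^ s := by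
  classical
  have hd0 : d ≠ 0 := by have := D.two_le w; omega
  have hq := w.q_pos
  intro s
  induction s with
  | zero =>
    intro _ S hS
    rw [pow_zero]
    apply Finset.card_le_one.2
    intro a ha b hb
    rw [mem_image] at ha hb
    obtain ⟨x, hx, rfl⟩ := ha
    obtain ⟨y, hy, rfl⟩ := hb
    rw [tr_eq_iff]
    intro l hl
    rcases Nat.lt_or_ge l j with h | h
    · rw [(hS x hx).low l h, (hS y hy).low l h]
    · have : l = j := by omega
      rw [this, (hS x hx).one, (hS y hy).one]
  | succ s ih =>
    intro hs S hS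
    have hs' : e * k * q ^ s < d - 1 := by simpa using hs (by omega)
    have hprev : 1 ≤ s → e * k * q ^ (s - 1) < d - 1 := by
      intro _
      refine lt_of_le_of_lt ?_ hs'
      exact Nat.mul_le_mul_left _ (Nat.pow_le_pow_right hq (by omega))
    have ih' := ih hprev
    set T' := S.image (tr (j + (s + 1))) with hT'
    have himg : T'.image (tr (j + s)) = S.image (tr (j + s)) := by
      rw [hT', image_image]
      apply image_congr
      intro x _
      exact tr_tr (i := j + s) x
    have h1 : T'.card ≤ q * (T'.image (tr (j + s))).card := by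
      apply Finset.card_le_mul_card_image
      intro a ha
      rw [himg, mem_image] at ha
      obtain ⟨x0, hx0, hx0a⟩ := ha
      -- the period of the base
      obtain ⟨n, hn1, hnq, hnagr⟩ : ∃ n, 1 ≤ n ∧ n ≤ q ^ s ∧ Agr (j + s) ((Fm d G)^[n] x0) x0 := by
        have hO := ih' ((range (q ^ s + 1)).image fun t => (Fm d G)^[t] x0) (by
          intro x hx
          rw [mem_image] at hx
          obtain ⟨t, _, rfl⟩ := hx
          exact (hS x0 hx0).iter hd0 hG hG0 t)
        obtain ⟨t1, ht1, t2, ht2, hne, heq⟩ := Finset.exists_ne_map_eq_of_card_lt_of_maps_to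
          (s := range (q ^ s + 1)) (f := fun t => tr (j + s) ((Fm d G)^[t] x0))
          (t := ((range (q ^ s + 1)).image fun t => (Fm d G)^[t] x0).image (tr (j + s)))
          (by rw [card_range]; omega)
          (by
            intro t ht
            exact mem_image_of_mem _ (mem_image_of_mem _ ht))
        rw [mem_range] at ht1 ht2
        rw [tr_eq_iff] at heq
        rcases lt_or_gt_of_ne hne with h | h
        · refine ⟨t2 - t1, by omega, by omega, ?_⟩
          apply Agr.reflect_iter w D hG t1
          rw [← Function.iterate_add_apply, show t1 + (t2 - t1) = t2 by omega]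
          exact heq.symm
        · refine ⟨t1 - t2, by omega, by omega, ?_⟩
          apply Agr.reflect_iter w D hG t2
          rw [← Function.iterate_add_apply, show t2 + (t1 - t2) = t1 by omega]
          exact heq
      set c : ℕ → K := fun t => G (j + (s + 1)) ((Fm d G)^[t] x0) with hc
      have hcper : ∀ t, c (t + n) = c t := by
        intro t
        apply hG
        intro l hl
        rw [Function.iterate_add_apply]
        exact hnagr.iter hG t l (by omega)
      set R := {x ∈ T' | tr (j + s) x = a} with hR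
      have hRmem : ∀ z ∈ R, ∃ x ∈ S, tr (j + (s + 1)) x = z ∧ Agr (j + s) x x0 := by
        intro z hz
        rw [hR, mem_filter, hT', mem_image] at hz
        obtain ⟨⟨x, hx, rfl⟩, hz2⟩ := hz
        refine ⟨x, hx, rfl, ?_⟩
        rw [← tr_eq_iff, hx0a, ← hz2]
        exact (tr_tr x).symm
      have hcard : R.card = (R.image fun z => z (j + (s + 1))).card := by
        rw [Finset.card_image_of_injOn]
        intro z hz z' hz' heq
        obtain ⟨x, hx, rfl, hx0'⟩ := hRmem z hz
        obtain ⟨y, hy, rfl, hy0'⟩ := hRmem z' hz'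
        rw [tr_eq_iff]
        intro l hl
        rcases Nat.lt_or_ge l (j + (s + 1)) with h | h
        · rw [hx0' l (by omega), hy0' l (by omega)]
        · have hl' : l = j + (s + 1) := by omega
          subst hl'
          simpa [tr] using heq
      rw [hcard]
      refine count_sol w D hn1 hcper ?_ _ ?_
      · refine lt_of_le_of_lt ?_ hs'
        exact Nat.mul_le_mul_left _ hnq
      · intro b hb
        rw [mem_image] at hb
        obtain ⟨z, hz, rfl⟩ := hb
        obtain ⟨x, hx, rfl, hxx0⟩ := hRmem z hz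
        refine ⟨fun t => ((Fm d G)^[t] x) (j + (s + 1)), ?_, ?_, ?_⟩
        · intro t
          show ((Fm d G)^[t + 1] x) (j + (s + 1)) = _
          rw [Function.iterate_succ_apply']
          show ((Fm d G)^[t] x) (j + (s + 1)) ^ d + G (j + (s + 1)) ((Fm d G)^[t] x) = _
          rw [hG (j + (s + 1)) ((Fm d G)^[t] x) ((Fm d G)^[t] x0)
            (fun l hl => hxx0.iter hG t l (by omega))]
        · obtain ⟨m, hm, hmx⟩ := (hS x hx).per
          refine ⟨m, hm, fun t => ?_⟩
          show ((Fm d G)^[t + m] x) _ = ((Fm d G)^[t] x) _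
          rw [Function.iterate_add_apply, hmx]
        · simp [tr]
    calc T'.card ≤ q * (T'.image (tr (j + s))).card := h1
      _ ≤ q * q ^ s := by rw [himg]; exact Nat.mul_le_mul_left _ (ih' S hS)
      _ = q ^ (s + 1) := by rw [pow_succ]; ring

theorem count_all (w : Wild v p q e) (D : Expo p q d k) (hG : Dep G) (hG0 : ∀ l, G l 0 = 0)
    (N : ℕ) (hN : e * k * q ^ (N - 1) < d - 1) (S : Finset (ℕ → K))
    (hS : ∀ x ∈ S, ∃ j ≤ N, PerPt d G j x) (hsupp : ∀ x ∈ S, ∀ l, N < l → x l = 0) :
    S.card ≤ ∑ i ∈ range (N + 1), q ^ i := by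
  classical
  have hq := w.q_pos
  have h1 : S ⊆ (range (N + 1)).biUnion fun j => S.filter (PerPt d G j) := by
    intro x hx
    obtain ⟨j, hj, h⟩ := hS x hx
    rw [mem_biUnion]
    exact ⟨j, by rw [mem_range]; omega, by rw [mem_filter]; exact ⟨hx, h⟩⟩
  calc S.card ≤ _ := card_le_card h1
    _ ≤ ∑ j ∈ range (N + 1), (S.filter (PerPt d G j)).card := card_biUnion_le
    _ ≤ ∑ j ∈ range (N + 1), q ^ (N - j) := by
        apply sum_le_sum
        intro j hj
        rw [mem_range] at hj
        have h2 := count_tr w D hG hG0 j (N - j) (by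
          intro _
          refine lt_of_le_of_lt ?_ hN
          exact Nat.mul_le_mul_left _ (Nat.pow_le_pow_right hq (by omega)))
          (S.filter (PerPt d G j)) (by intro x hx; exact (mem_filter.1 hx).2)
        rw [show j + (N - j) = N by omega, Finset.card_image_of_injOn] at h2
        · exact h2
        · intro x hx y hy hxy
          rw [mem_coe, mem_filter] at hx hy
          funext l
          have h3 : Agr N x y := tr_eq_iff.1 hxy
          rcases Nat.lt_or_ge N l with h | h
          · rw [hsupp x hx.1 l h, hsupp y hy.1 l h]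
          · exact h3 l h
    _ = ∑ i ∈ range (N + 1), q ^ i := by
        rw [← Finset.sum_range_reflect]
        apply sum_congr rfl
        intro j hj
        rw [mem_range] at hj
        congr 1
        omega

end Pool.Agent.TH78.WP
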