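import Pool.Agent.TH78.WP.Loc

set_option autoImplicit false

open Finset Pool.Agent.H504R2
open scoped WithZero

namespace Pool.Agent.TH78.WP

variable {K : Type} [Field K] {v : Valuation K ℤᵐ⁰} {p q e d k n : ℕ}

/-- `x` solves the recursion `x (t+1) = x t ^ d + c t` -/
def Sol (d : ℕ) (c x : ℕ → K) : Prop := ∀ t, x (t + 1) = x t ^ d + c t

/-- `x` is periodic -/
def Per (x : ℕ → K) : Prop := ∃ N, 1 ≤ N ∧ ∀ t, x (t + N) = x t

lemma Per.shift {x : ℕ → K} (h : Per x) (s : ℕ) : Per (fun t => x (t + s)) := by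
  obtain ⟨N, hN, h⟩ := h
  refine ⟨N, hN, fun t => ?_⟩
  show x (t + N + s) = x (t + s)
  rw [show t + N + s = t + s + N by ring]; exact h _

lemma per_mul {x : ℕ → K} {N : ℕ} (h : ∀ t, x (t + N) = x t) (m t : ℕ) : x (t + m * N) = x t := by
  induction m with
  | zero => simp
  | succ m ih => rw [show t + (m + 1) * N = t + m * N + N by ring, h, ih]

lemma Sol.shift {c x : ℕ → K} (h : Sol d c x) (s : ℕ) :
    Sol d (fun t => c (t + s)) (fun t => x (t + s)) := by
  intro t
  show x (t + 1 + s) = _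
  rw [show t + 1 + s = t + s + 1 by ring]
  exact h (t + s)

lemma Sol.ne (w : Wild v p q e) (D : Expo p q d k) {c x y : ℕ → K} (hx : Sol d c x)
    (hy : Sol d c y) (h : x 0 ≠ y 0) : ∀ t, x t ≠ y t := by
  intro t
  induction t with
  | zero => exact h
  | succ t ih =>
    rw [hx t, hy t]
    intro h2
    exact inj_d w D ih (add_right_cancel h2)

lemma Sol.eq {c x y : ℕ → K} (hx : Sol d c x) (hy : Sol d c y) (h : x 0 = y 0) : ∀ t, x t = y t := by
  intro t
  induction t with
  | zero => exact h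
  | succ t ih => rw [hx t, hy t, ih]

lemma v_sub_pos {x y : K} (h : x ≠ y) : 0 < v (x - y) :=
  zero_lt_iff.2 ((Valuation.ne_zero_iff v).2 (sub_ne_zero.2 h))

/-- the ratio of two distances does not increase, and it decreases if the larger one is not small -/
lemma ratio_step (w : Wild v p q e) (D : Expo p q d k) {c x y z : ℕ → K} (hx : Sol d c x)
    (hy : Sol d c y) (hz : Sol d c z) (t : ℕ) (hxy : x t ≠ y t)
    (h : v (x t - y t) < v (x t - z t)) :
    v (x (t + 1) - y (t + 1)) / v (x (t + 1) - z (t + 1)) ≤ v (x t - y t) / v (x t - z t) ∧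
    (v (x t) ≤ v (x t - z t) →
      v (x (t + 1) - y (t + 1)) / v (x (t + 1) - z (t + 1)) < v (x t - y t) / v (x t - z t)) := by
  have hd := D.two_le w
  have ha : 0 < v (x t - y t) := v_sub_pos hxy
  have hb : 0 < v (x t - z t) := ha.trans h
  have hvp := w.v_pos
  have e1 : x (t + 1) - y (t + 1) = x t ^ d - y t ^ d := by rw [hx t, hy t]; ring
  have e2 : x (t + 1) - z (t + 1) = x t ^ d - z t ^ d := by rw [hx t, hz t]; ring
  have far : v (x t) ≤ v (x t - z t) →
      v (x (t + 1) - y (t + 1)) / v (x (t + 1) - z (t + 1)) < v (x t - y t) / v (x t - z t) := by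
    intro hf
    rw [e1, e2, far_d w D hf]
    have key : v (x t ^ d - y t ^ d) < v (x t - y t) * v (x t - z t) ^ (d - 1) := by
      rcases lt_or_ge (v (x t - y t)) (v (x t)) with h1 | h1
      · rw [close_d w D h1]
        have hxp : 0 < v (x t) := ha.trans h1
        have hk : v (p : K) ^ k < 1 := pow_lt_one₀ zero_le w.hv.p_lt (by have := D.k1; omega)
        calc v (p : K) ^ k * v (x t) ^ (d - 1) * v (x t - y t)
            < 1 * v (x t) ^ (d - 1) * v (x t - y t) := by
              apply mul_lt_mul_of_pos_right _ ha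
              exact mul_lt_mul_of_pos_right hk (pow_pos hxp _)
          _ = v (x t - y t) * v (x t) ^ (d - 1) := by rw [one_mul, mul_comm]
          _ ≤ v (x t - y t) * v (x t - z t) ^ (d - 1) := by gcongr
      · rw [far_d w D h1]
        have h2 : v (x t - y t) ^ d = v (x t - y t) * v (x t - y t) ^ (d - 1) := by
          rw [← pow_succ']; congr 1; omega
        rw [h2]
        exact mul_lt_mul_of_pos_left (pow_lt_pow_left₀ h zero_le (by omega)) ha
    have h3 : v (x t - z t) ^ d = v (x t - z t) ^ (d - 1) * v (x t - z t) := by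
      rw [← pow_succ]; congr 1; omega
    rw [div_lt_div_iff₀ (pow_pos hb _) hb, h3, ← mul_assoc]
    exact mul_lt_mul_of_pos_right key hb
  refine ⟨?_, far⟩
  rcases lt_or_ge (v (x t - z t)) (v (x t)) with h1 | h1
  · rw [e1, e2, close_d w D h1, close_d w D (h.trans h1)]
    have hxp : 0 < v (x t) := hb.trans h1
    have hC : v (p : K) ^ k * v (x t) ^ (d - 1) ≠ 0 := (mul_pos (pow_pos hvp _) (pow_pos hxp _)).ne'
    rw [mul_div_mul_left _ _ hC]
  · exact (far h1).le

lemma lemU (w : Wild v p q e) (D : Expo p q d k) {c x y z : ℕ → K} (hx : Sol d c x)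
    (hy : Sol d c y) (hz : Sol d c z) (px : Per x) (py : Per y) (pz : Per z) (hxy : x 0 ≠ y 0)
    (h : v (x 0 - y 0) < v (x 0 - z 0)) : ∀ t, v (x t - z t) < v (x t) := by
  have hne := hx.ne w D hy hxy
  have hxz : x 0 ≠ z 0 := by
    intro h0
    rw [h0, sub_self, map_zero] at h
    exact absurd h (not_lt.2 zero_le)
  have hnez := hx.ne w D hz hxz
  set r : ℕ → ℤᵐ⁰ := fun t => v (x t - y t) / v (x t - z t) with hr
  have hlt : ∀ t, v (x t - y t) < v (x t - z t) := by
    intro t
    induction t with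
    | zero => exact h
    | succ t ih =>
      have h1 := (ratio_step w D hx hy hz t (hne t) ih).1
      have h2 : v (x t - y t) / v (x t - z t) < 1 := (div_lt_one₀ (v_sub_pos (hnez t))).2 ih
      exact (div_lt_one₀ (v_sub_pos (hnez (t + 1)))).1 (lt_of_le_of_lt h1 h2)
  have hanti : Antitone r := antitone_nat_of_succ_le fun t =>
    (ratio_step w D hx hy hz t (hne t) (hlt t)).1
  obtain ⟨N1, hN1, p1⟩ := px
  obtain ⟨N2, hN2, p2⟩ := py
  obtain ⟨N3, hN3, p3⟩ := pz
  intro t
  by_contra hcon
  rw [not_lt] at hcon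
  have h1 := (ratio_step w D hx hy hz t (hne t) (hlt t)).2 hcon
  have q1 : x (t + N1 * N2 * N3) = x t := by
    rw [show N1 * N2 * N3 = (N2 * N3) * N1 by ring]; exact per_mul p1 _ _
  have q2 : y (t + N1 * N2 * N3) = y t := by
    rw [show N1 * N2 * N3 = (N1 * N3) * N2 by ring]; exact per_mul p2 _ _
  have q3 : z (t + N1 * N2 * N3) = z t := per_mul p3 _ _
  have hpos : 1 ≤ N1 * N2 * N3 := Nat.mul_pos (Nat.mul_pos hN1 hN2) hN3
  have h2 : r (t + N1 * N2 * N3) ≤ r (t + 1) := hanti (by omega)
  have h3 : r (t + N1 * N2 * N3) = r t := by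
    rw [hr]; simp only [q1, q2, q3]
  rw [h3] at h2
  exact absurd h1 (not_lt.2 h2)

lemma v_eq_of_sub_lt {x y : K} (h : v (x - y) < v x) : v y = v x := by
  have h1 : y = x - (x - y) := by ring
  rw [h1]
  exact Valuation.map_sub_eq_of_lt_left _ h

lemma lemV (w : Wild v p q e) (D : Expo p q d k) {c x z : ℕ → K} (hx : Sol d c x)
    (hz : Sol d c z) (px : Per x) (pz : Per z) (hn : 1 ≤ n) (hc : ∀ t, c (t + n) = c t)
    (hd : e * k * n < d - 1) (hne : x 0 ≠ z 0) (h : ∀ t, v (x t - z t) < v (x t)) : False := by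
  have hne' := hx.ne w D hz hne
  -- the valuations of `x` are `n`-periodic
  have hper : ∀ s, v (x (s + n)) = v (x s) := by
    intro s
    have h1 : Sol d (fun t => c (t + s)) (fun t => x (t + s)) := hx.shift s
    have h2 : Sol d (fun t => c (t + s)) (fun t => z (t + s)) := hz.shift s
    have h3 : Sol d (fun t => c (t + s)) (fun t => x (t + (s + n))) := by
      have := hx.shift (s + n)
      have h4 : (fun t => c (t + (s + n))) = fun t => c (t + s) := by
        funext t
        rw [show t + (s + n) = t + s + n by ring]; exact hc _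
      rwa [h4] at this
    by_cases h0 : x s = x (s + n)
    · rw [← h0]
    have h5 : v (x s - x (s + n)) < v (x s) := by
      rcases le_or_gt (v (x s - x (s + n))) (v (x s - z s)) with h6 | h6
      · exact lt_of_le_of_lt h6 (h s)
      · have := lemU w D h1 h2 h3 (px.shift s) (pz.shift s) (px.shift (s + n))
          (by simpa using hne' s) (by simpa using h6) 0
        simpa using this
    exact v_eq_of_sub_lt h5
  -- integers
  have hb : ∀ t, 0 < v (x t - z t) := fun t => v_sub_pos (hne' t)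
  have hxp : ∀ t, 0 < v (x t) := fun t => (hb t).trans (h t)
  set u : ℕ → ℤ := fun t => WithZero.log (v (x t)) with hu
  set b : ℕ → ℤ := fun t => WithZero.log (v (x t - z t)) with hbd
  set E : ℤ := - WithZero.log (v (p : K)) with hE
  have hE1 : 1 ≤ E := by
    have h1 : WithZero.log (v (p : K)) < 0 := by
      rw [← WithZero.log_one]
      exact (WithZero.log_lt_log w.v_pos.ne' one_ne_zero).2 w.hv.p_lt
    omega
  have hE2 : E ≤ e := by
    have h1 : (-(e : ℤ)) ≤ WithZero.log (v (p : K)) := by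
      have := (WithZero.log_le_log (WithZero.exp_pos (a := -(e : ℤ))).ne' w.v_pos.ne').2 w.hev
      rwa [WithZero.log_exp] at this
    omega
  have hstep : ∀ t, b (t + 1) = b t + (((d - 1 : ℕ) : ℤ) * u t - k * E) := by
    intro t
    have e1 : x (t + 1) - z (t + 1) = x t ^ d - z t ^ d := by rw [hx t, hz t]; ring
    show WithZero.log (v (x (t + 1) - z (t + 1))) = _
    rw [e1, close_d w D (h t), WithZero.log_mul (mul_pos (pow_pos w.v_pos _) (pow_pos (hxp t) _)).ne' (hb t).ne',
      WithZero.log_mul (pow_pos w.v_pos _).ne' (pow_pos (hxp t) _).ne', WithZero.log_pow, WithZero.log_pow]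
    simp only [nsmul_eq_mul, hu, hbd, hE]
    ring
  have huper : ∀ m s, u (m * n + s) = u s := by
    intro m
    induction m with
    | zero => intro s; simp
    | succ m ih =>
      intro s
      rw [show (m + 1) * n + s = (m * n + s) + n by ring, ← ih s]
      simp only [hu]
      rw [hper]
  set W : ℕ → ℤ := fun s => ((d - 1 : ℕ) : ℤ) * u s - k * E with hW
  have hblk : ∀ m j, b (m * n + j) = b (m * n) + ∑ s ∈ range j, W s := by
    intro m j
    induction j with
    | zero => simp
    | succ j ih =>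
      rw [← add_assoc, hstep, ih, sum_range_succ, huper]
      ring
  have htot : ∀ m : ℕ, b (m * n) = b 0 + m * ∑ s ∈ range n, W s := by
    intro m
    induction m with
    | zero => simp
    | succ m ih =>
      rw [show (m + 1) * n = m * n + n by ring, hblk, ih]
      push_cast
      ring
  obtain ⟨N1, hN1, p1⟩ := px
  obtain ⟨N2, hN2, p2⟩ := pz
  have q1 : x ((N1 * N2) * n) = x 0 := by
    have := per_mul p1 (N2 * n) 0
    rw [zero_add] at this
    rw [← this]; congr 1; ring
  have q2 : z ((N1 * N2) * n) = z 0 := by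
    have := per_mul p2 (N1 * n) 0
    rw [zero_add] at this
    rw [← this]; congr 1; ring
  have h1 := htot (N1 * N2)
  have h2 : b ((N1 * N2) * n) = b 0 := by
    simp only [hbd, q1, q2]
  rw [h2] at h1
  have h3 : ((N1 * N2 : ℕ) : ℤ) * ∑ s ∈ range n, W s = 0 := by omega
  have h4 : ((N1 * N2 : ℕ) : ℤ) ≠ 0 := by
    exact_mod_cast (Nat.mul_pos hN1 hN2).ne'
  have h5 : ∑ s ∈ range n, W s = 0 := by
    rcases mul_eq_zero.1 h3 with h | h
    · exact absurd h h4
    · exact h
  have h6 : ∑ s ∈ range n, W s = ((d - 1 : ℕ) : ℤ) * (∑ s ∈ range n, u s) - n * (k * E) := by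
    rw [hW, sum_sub_distrib, ← mul_sum, sum_const, card_range, nsmul_eq_mul]
  rw [h6] at h5
  have h7 : ((d - 1 : ℕ) : ℤ) ∣ n * (k * E) := ⟨∑ s ∈ range n, u s, by linarith⟩
  have hk1 := D.k1
  have h8 : 0 < (n : ℤ) * (k * E) := by positivity
  have h9 := Int.le_of_dvd h8 h7
  have h10 : (n : ℤ) * (k * E) ≤ n * (k * e) := by gcongr
  have h11 : ((e * k * n : ℕ) : ℤ) < ((d - 1 : ℕ) : ℤ) := by exact_mod_cast hd
  push_cast at h11
  nlinarith

/-- the initial values of the periodic solutions: at most `q` -/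
theorem count_sol (w : Wild v p q e) (D : Expo p q d k) {c : ℕ → K} (hn : 1 ≤ n)
    (hc : ∀ t, c (t + n) = c t) (hd : e * k * n < d - 1) (A : Finset K)
    (hA : ∀ a ∈ A, ∃ x, Sol d c x ∧ Per x ∧ x 0 = a) : A.card ≤ q := by
  classical
  have hq : 1 ≤ q := by
    have := w.hv.card_le {0} (by
      intro x hx y hy h
      rw [mem_singleton] at hx hy
      exact absurd (hx.trans hy.symm) h)
    simpa using this
  rcases le_or_gt A.card 1 with h1 | h1
  · exact h1.trans hq
  obtain ⟨a0, ha0, a1, ha1, h01⟩ := Finset.one_lt_card.1 h1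
  have hnot : ∀ a ∈ A, ∀ b ∈ A, ∀ c' ∈ A, a ≠ b → ¬ v (a - b) < v (a - c') := by
    intro a ha b hb c' hc' hab hlt
    obtain ⟨x, hx, px, x0⟩ := hA a ha
    obtain ⟨y, hy, py, y0⟩ := hA b hb
    obtain ⟨z, hz, pz, z0⟩ := hA c' hc'
    have hac : a ≠ c' := by
      rintro rfl
      rw [sub_self, map_zero] at hlt
      exact absurd hlt (not_lt.2 zero_le)
    have hU := lemU w D hx hy hz px py pz (by rw [x0, y0]; exact hab) (by rw [x0, y0, z0]; exact hlt)
    exact lemV w D hx hz px pz hn hc hd (by rw [x0, z0]; exact hac) hU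
  have heq : ∀ a ∈ A, ∀ b ∈ A, ∀ c' ∈ A, a ≠ b → a ≠ c' → v (a - b) = v (a - c') := by
    intro a ha b hb c' hc' hab hac
    exact le_antisymm (not_lt.1 (hnot a ha c' hc' b hb hac)) (not_lt.1 (hnot a ha b hb c' hc' hab))
  have hall : ∀ a ∈ A, ∀ b ∈ A, a ≠ b → v (a - b) = v (a0 - a1) := by
    intro a ha b hb hab
    by_cases h : a = a0
    · subst h
      exact heq a ha b hb a1 ha1 hab h01
    · rw [heq a ha b hb a0 ha0 hab h, Valuation.map_sub_swap]
      exact heq a0 ha0 a ha a1 ha1 (Ne.symm h) h01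
  have hu : a0 - a1 ≠ 0 := sub_ne_zero.2 h01
  have hvu : v (a0 - a1) ≠ 0 := (Valuation.ne_zero_iff v).2 hu
  have := w.hv.card_le (A.image fun a => a / (a0 - a1)) (by
    intro x hx y hy hxy
    rw [mem_image] at hx hy
    obtain ⟨a, ha, rfl⟩ := hx
    obtain ⟨b, hb, rfl⟩ := hy
    have hab : a ≠ b := by rintro rfl; exact hxy rfl
    rw [← sub_div, map_div₀, hall a ha b hb hab, div_self hvu])
  rwa [Finset.card_image_of_injective] at this
  intro a b hab
  exact (div_left_inj' hu).1 hab

end Pool.Agent.TH78.WP
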