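import Pool.Agent.TH78.WP.Glob

set_option autoImplicit false

open Finset Pool.Agent.H504R2 IsDedekindDomain NumberField

namespace Pool.Agent.TH78.WP

variable {K : Type} [Field K]

/-- normalised vectors with coordinates in a finite set containing `0` and `1` -/
lemma exists_normalised [DecidableEq K] (U : Finset K) (h0 : (0 : K) ∈ U) (h1 : (1 : K) ∈ U) :
    ∀ N : ℕ, ∃ S : Finset (Fin (N + 1) → K), S.card = ∑ i ∈ range (N + 1), U.card ^ i ∧
      (∀ x ∈ S, x ≠ 0) ∧ (∀ x ∈ S, ∀ i, x i ∈ U) ∧
      (∀ x ∈ S, ∀ y ∈ S, ∀ c : K, x = c • y → x = y) := by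
  classical
  intro N
  induction N with
  | zero =>
    refine ⟨{fun _ => 1}, ?_, ?_, ?_, ?_⟩
    · simp
    · intro x hx
      rw [mem_singleton] at hx
      subst hx
      intro h
      have := congrFun h 0
      simp at this
    · intro x hx i
      rw [mem_singleton] at hx
      subst hx; exact h1
    · intro x hx y hy c _
      rw [mem_singleton] at hx hy
      rw [hx, hy]
  | succ N ih =>
    obtain ⟨S, hcard, hne, hU, hpr⟩ := ih
    set A : Finset (Fin (N + 2) → K) := (Fintype.piFinset fun _ : Fin (N + 1) => U).image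
      (fun x => (Fin.cons 1 x : Fin (N + 2) → K)) with hA
    set B : Finset (Fin (N + 2) → K) := S.image (fun x => (Fin.cons 0 x : Fin (N + 2) → K)) with hB
    have hdisj : Disjoint A B := by
      rw [Finset.disjoint_left]
      intro x hx hx'
      rw [hA, mem_image] at hx
      rw [hB, mem_image] at hx'
      obtain ⟨y, _, rfl⟩ := hx
      obtain ⟨z, _, hz⟩ := hx'
      have := congrFun hz 0
      simp at this
    have memA : ∀ x ∈ A, x 0 = 1 ∧ ∀ i, x i ∈ U := by
      intro x hx
      rw [hA, mem_image] at hx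
      obtain ⟨y, hy, rfl⟩ := hx
      rw [Fintype.mem_piFinset] at hy
      refine ⟨by simp, fun i => ?_⟩
      refine Fin.cases ?_ (fun i => ?_) i
      · simpa using h1
      · simpa using hy i
    have memB : ∀ x ∈ B, x 0 = 0 ∧ Fin.tail x ∈ S := by
      intro x hx
      rw [hB, mem_image] at hx
      obtain ⟨y, hy, rfl⟩ := hx
      exact ⟨by simp, by simpa using hy⟩
    refine ⟨A ∪ B, ?_, ?_, ?_, ?_⟩
    · rw [card_union_of_disjoint hdisj, hA, hB, card_image_of_injective _ (Fin.cons_right_injective _),
        card_image_of_injective _ (Fin.cons_right_injective _), Fintype.card_piFinset, hcard,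
        sum_range_succ _ (N + 1)]
      simp
      ring
    · intro x hx h
      rcases mem_union.1 hx with hx | hx
      · have := (memA x hx).1
        rw [h] at this
        simp at this
      · apply hne _ (memB x hx).2
        funext i
        rw [h]
        simp [Fin.tail]
    · intro x hx i
      rcases mem_union.1 hx with hx | hx
      · exact (memA x hx).2 i
      · obtain ⟨h2, h3⟩ := memB x hx
        refine Fin.cases ?_ (fun i => ?_) i
        · rw [h2]; exact h0
        · exact hU _ h3 i
    · intro x hx y hy c hxy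
      rcases mem_union.1 hx with hx | hx <;> rcases mem_union.1 hy with hy | hy
      · have h2 := congrFun hxy 0
        rw [Pi.smul_apply, (memA x hx).1, (memA y hy).1, smul_eq_mul, mul_one] at h2
        rw [hxy, ← h2, one_smul]
      · exfalso
        have h2 := congrFun hxy 0
        rw [Pi.smul_apply, (memA x hx).1, (memB y hy).1, smul_eq_mul, mul_zero] at h2
        exact one_ne_zero h2
      · exfalso
        have h2 := congrFun hxy 0
        rw [Pi.smul_apply, (memB x hx).1, (memA y hy).1, smul_eq_mul, mul_one] at h2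
        apply hne _ (memB x hx).2
        funext i
        rw [hxy, ← h2]
        simp [Fin.tail]
      · have h2 : Fin.tail x = c • Fin.tail y := by
          funext i
          exact congrFun hxy i.succ
        have h3 := hpr _ (memB x hx).2 _ (memB y hy).2 c h2
        rw [← Fin.cons_self_tail x, ← Fin.cons_self_tail y, h3, (memB x hx).1, (memB y hy).1]

/-- the bound is attained by the power map -/
theorem sharp {q d : ℕ} (hd0 : d ≠ 0) (hq : 2 ≤ q) (hd : Nat.Coprime d (q - 1)) {ζ : K}
    (hζ : IsPrimitiveRoot ζ (q - 1)) (N : ℕ) :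
    ∃ S : Finset (Fin (N + 1) → K), S.card = ∑ i ∈ range (N + 1), q ^ i ∧
      (∀ x ∈ S, x ≠ 0) ∧ (∀ x ∈ S, ∀ y ∈ S, ∀ c : K, x = c • y → x = y) ∧
      (∀ x ∈ S, ∃ m n : ℕ, m < n ∧ ∃ c : K, c ≠ 0 ∧
        (fmap d (0 : Fin (N + 1) → MvPolynomial (Fin (N + 1)) K))^[n] x =
          c • (fmap d (0 : Fin (N + 1) → MvPolynomial (Fin (N + 1)) K))^[m] x) := by
  classical
  have hq1 : 0 < q - 1 := by omega
  set U : Finset K := insert 0 ((range (q - 1)).image fun i => ζ ^ i) with hU
  have hUcard : U.card = q := by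
    rw [hU, card_insert_of_notMem, card_image_of_injOn, card_range]
    · omega
    · intro i hi j hj hij
      rw [mem_coe, mem_range] at hi hj
      exact hζ.pow_inj hi hj hij
    · intro h
      rw [mem_image] at h
      obtain ⟨i, _, hi⟩ := h
      exact pow_ne_zero i (hζ.ne_zero (by omega)) hi
  obtain ⟨S, hcard, hne, hUm, hpr⟩ := exists_normalised U (mem_insert_self _ _) (by
    rw [hU, mem_insert]
    right
    rw [mem_image]
    exact ⟨0, mem_range.2 hq1, pow_zero _⟩) N
  refine ⟨S, by rw [hcard, hUcard], hne, hpr, ?_⟩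
  intro x hx
  refine ⟨0, Nat.totient (q - 1), Nat.totient_pos.2 hq1, 1, one_ne_zero, ?_⟩
  have hpow : ∀ t i, ((fmap d (0 : Fin (N + 1) → MvPolynomial (Fin (N + 1)) K))^[t] x) i = x i ^ d ^ t := by
    intro t
    induction t with
    | zero => intro i; simp
    | succ t ih =>
      intro i
      rw [Function.iterate_succ_apply', pow_succ, pow_mul, ← ih i]
      simp [fmap]
  rw [one_smul]
  funext i
  rw [hpow, hpow, pow_zero, pow_one]
  have hxi := hUm x hx i
  rw [hU, mem_insert] at hxi
  have hmod : d ^ Nat.totient (q - 1) ≡ 1 [MOD (q - 1)] := Nat.ModEq.pow_totient hd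
  rcases hxi with h | h
  · rw [h]
    apply zero_pow
    exact pow_ne_zero _ hd0
  · rw [mem_image] at h
    obtain ⟨j, _, hj⟩ := h
    rw [← hj, ← pow_mul, mul_comm, pow_mul]
    have h2 : ζ ^ (d ^ Nat.totient (q - 1)) = ζ ^ 1 := by
      rw [← Nat.div_add_mod (d ^ Nat.totient (q - 1)) (q - 1), pow_add, pow_mul, hζ.pow_eq_one, one_pow, one_mul]
      have h3 : d ^ Nat.totient (q - 1) % (q - 1) = 1 % (q - 1) := hmod
      rw [h3]
      conv_rhs => rw [← Nat.div_add_mod 1 (q - 1), pow_add, pow_mul, hζ.pow_eq_one, one_pow, one_mul]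
    rw [h2, pow_one]

end Pool.Agent.TH78.WP
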